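import Pool.Agent.Work.MP_6b71e5_co.Bridge

namespace Pool.Agent.Results.MP_6b71e5_co.NineElement

open Pool.Agent.Work.MP_6b71e5_co
open scoped Matroid

/-- Every finite 3-connected non-binary matroid with an `M(W_4)`-minor has a 9-element minor that
is 3-connected, non-binary and has an `M(W_4)`-minor. -/
theorem result {α : Type*} (M : Matroid α) [M.Finite] (h3 : IsThreeConnected M)
    (hb : ¬ IsBinary M) (hw : HasWheel4Minor M) :
    ∃ N : Matroid α, N ≤m M ∧ N.E.encard = 9 ∧ IsThreeConnected N ∧ ¬ IsBinary N ∧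
      HasWheel4Minor N :=
  nine M h3 hb hw

end Pool.Agent.Results.MP_6b71e5_co.NineElement
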